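import Pool.Agent.FGT.Stmts

/-! Squad FGT, row MIX: the sets `WX p K n`, `IX p K`, `FX X K`. -/

set_option autoImplicit false

namespace Pool.Agent.FGT.H20

open Filter Topology Pool.Agent.H22.CIG Pool.Agent.H67.CIP MeasureTheory

universe u v

section
variable {X : Type v} [TopologicalSpace X] {T : X ≃ₜ X} {L : Type u} [Group L] [MulAction L X]

theorem clopen_alp (p : Piece T L) (g : L) (i j : ℤ) : IsClopen {x | alp p x g j = i} := by
  have h : Continuous fun x : X => alp p x g j := by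
    have h1 : Continuous fun x : X => p.n g ((T ^ j) x) + j :=
      ((p.cont g).comp (T ^ j).continuous).add continuous_const
    exact h1
  exact (isClopen_discrete {i}).preimage h

theorem zero_mem_orb (α : L →* Equiv.Perm ℤ) (K : Subgroup L) : (0 : ℤ) ∈ orb α K 0 :=
  ⟨1, K.one_mem, by rw [map_one, Equiv.Perm.one_apply]⟩

theorem orb_inv (α : L →* Equiv.Perm ℤ) (K : Subgroup L) {g : L} (hg : g ∈ K) (j : ℤ) :
    α g j ∈ orb α K 0 ↔ j ∈ orb α K 0 := by
  constructor
  · rintro ⟨h, hh, h1⟩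
    refine ⟨g⁻¹ * h, K.mul_mem (K.inv_mem hg) hh, ?_⟩
    rw [map_mul, Equiv.Perm.mul_apply, h1, map_inv, Equiv.Perm.inv_def, Equiv.symm_apply_apply]
  · rintro ⟨h, hh, h1⟩
    refine ⟨g * h, K.mul_mem hg hh, ?_⟩
    rw [map_mul, Equiv.Perm.mul_apply, h1]

/-- if the generators of `K` map the finite set `O` to itself, so do the elements of `K` -/
theorem maps_closure (α : L →* Equiv.Perm ℤ) (S : Set L) (O : Set ℤ) (hO : O.Finite)
    (hS : ∀ s ∈ S, ∀ j ∈ O, α s j ∈ O) : ∀ g ∈ Subgroup.closure S, ∀ j ∈ O, α g j ∈ O := by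
  intro g hg
  induction hg using Subgroup.closure_induction with
  | mem s hs => exact hS s hs
  | one =>
    intro j hj
    rw [map_one, Equiv.Perm.one_apply]
    exact hj
  | mul a b _ _ ha hb =>
    intro j hj
    rw [map_mul, Equiv.Perm.mul_apply]
    exact ha _ (hb _ hj)
  | inv a _ ha =>
    intro j hj
    have : Finite O := hO
    have hinj : Function.Injective fun i : O => (⟨α a i, ha i i.2⟩ : O) := by
      intro i i' h
      exact Subtype.ext ((α a).injective (congrArg Subtype.val h))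
    obtain ⟨i, hi⟩ := (Finite.injective_iff_surjective.1 hinj) ⟨j, hj⟩
    have h1 : α a i = j := congrArg Subtype.val hi
    rw [map_inv, ← h1, Equiv.Perm.inv_def, Equiv.symm_apply_apply]
    exact i.2

theorem isOpen_WX (p : Piece T L) (K : Subgroup L) (hK : K.FG) (n : ℕ) : IsOpen (WX p K n) := by
  obtain ⟨S, hS⟩ := hK
  rw [isOpen_iff_mem_nhds]
  intro x hx
  have hx' : (orb (alp p x) K 0).encard ≤ n := hx
  have hfin : (orb (alp p x) K 0).Finite := Set.finite_of_encard_le_coe hx'
  have hU : (⋂ s ∈ (S : Set L), ⋂ j ∈ orb (alp p x) K 0, {y | alp p y s j = alp p x s j}) ∈ 𝓝 x := by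
    refine (Set.Finite.isOpen_biInter S.finite_toSet fun s _ =>
      Set.Finite.isOpen_biInter hfin fun j _ => (clopen_alp p s _ j).isOpen).mem_nhds ?_
    simp only [Set.mem_iInter]
    intro s _ j _
    rfl
  filter_upwards [hU] with y hy
  simp only [Set.mem_iInter] at hy
  change (orb (alp p y) K 0).encard ≤ n
  refine le_trans (Set.encard_le_encard ?_) hx'
  rintro i ⟨g, hg, rfl⟩
  rw [← hS] at hg
  refine maps_closure (alp p y) (S : Set L) (orb (alp p x) K 0) hfin (fun s hs j hj => ?_) g hg 0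
    (zero_mem_orb _ _)
  rw [hy s hs j hj]
  exact (orb_inv (alp p x) K (by rw [← hS]; exact Subgroup.subset_closure hs) j).2 hj

theorem isClosed_WX (p : Piece T L) (K : Subgroup L) (n : ℕ) : IsClosed (WX p K n) := by
  rw [← isOpen_compl_iff, isOpen_iff_mem_nhds]
  intro x hx
  have hx' : ((n + 1 : ℕ) : ℕ∞) ≤ (orb (alp p x) K 0).encard := by
    have h1 : ¬ (orb (alp p x) K 0).encard ≤ n := hx
    rw [not_le] at h1
    rw [Nat.cast_add, Nat.cast_one]
    exact Order.add_one_le_of_lt h1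
  obtain ⟨F, hF1, hF2⟩ := Set.exists_subset_encard_eq hx'
  have hFf : F.Finite := Set.finite_of_encard_eq_coe hF2
  have hch : ∀ i ∈ F, ∃ g ∈ K, alp p x g 0 = i := fun i hi => hF1 hi
  choose! g hg1 hg2 using hch
  have hU : (⋂ i ∈ F, {y | alp p y (g i) 0 = i}) ∈ 𝓝 x := by
    refine (Set.Finite.isOpen_biInter hFf fun i _ => (clopen_alp p (g i) _ 0).isOpen).mem_nhds ?_
    simp only [Set.mem_iInter]
    exact fun i hi => hg2 i hi
  filter_upwards [hU] with y hy
  simp only [Set.mem_iInter] at hy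
  intro hy2
  have hy3 : (orb (alp p y) K 0).encard ≤ n := hy2
  have hsub : F ⊆ orb (alp p y) K 0 := fun i hi => ⟨g i, hg1 i hi, hy i hi⟩
  have h2 := (Set.encard_le_encard hsub).trans hy3
  rw [hF2] at h2
  have h3 : n + 1 ≤ n := by exact_mod_cast h2
  omega

theorem finite_homs {G : Type*} [Group G] [Group.FG G] (P : Type*) [Group P] [Finite P] :
    Finite (G →* P) := by
  obtain ⟨S, hS, hf⟩ := Group.fg_iff.1 (inferInstance : Group.FG G)
  have : Finite S := hf
  refine Finite.of_injective (fun (f : G →* P) (s : S) => f s) fun f g h => ?_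
  exact MonoidHom.eq_of_eqOn_dense hS fun s hs => congrFun h ⟨s, hs⟩

theorem exists_N (K : Subgroup L) (hK : K.FG) (n : ℕ) : ∃ N : Subgroup L, N ≤ K ∧
    N.relIndex K ≠ 0 ∧ ∀ m ≤ n, ∀ f : K →* Equiv.Perm (Fin m), ∀ (g : L) (hg : g ∈ K), g ∈ N →
      f ⟨g, hg⟩ = 1 := by
  have hKf : Group.FG K := (Group.fg_iff_subgroup_fg K).2 hK
  obtain ⟨N', hN'⟩ : ∃ N' : Subgroup K, N' = ⨅ m : Fin (n + 1), ⨅ f : K →* Equiv.Perm (Fin m), f.ker :=
    ⟨_, rfl⟩
  have hfi : N'.FiniteIndex := by
    rw [hN']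
    refine Subgroup.finiteIndex_iInf fun m => ?_
    have := finite_homs (G := K) (Equiv.Perm (Fin m))
    exact Subgroup.finiteIndex_iInf fun f => Subgroup.finiteIndex_ker f
  refine ⟨N'.map K.subtype, Subgroup.map_subtype_le N', ?_, ?_⟩
  · have h1 : (N'.map K.subtype).relIndex K = N'.index := by
      change ((N'.map K.subtype).comap K.subtype).index = N'.index
      rw [Subgroup.comap_map_eq_self_of_injective K.subtype_injective]
    rw [h1]
    exact hfi.index_ne_zero
  · intro m hm f g hg hgN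
    obtain ⟨g', hg', h1⟩ := hgN
    have h2 : g' = ⟨g, hg⟩ := Subtype.ext h1
    rw [h2, hN'] at hg'
    have h3 := (Subgroup.mem_iInf.1 hg') ⟨m, Nat.lt_succ_of_le hm⟩
    exact (Subgroup.mem_iInf.1 h3) f

end

theorem mix : MixStmt.{u, v} := by
  intro X _ _ T L _ _ p K hK
  refine ⟨fun n => ⟨isClosed_WX p K n, isOpen_WX p K hK n⟩, ?_, ?_, ?_⟩
  · ext x
    rw [Set.mem_compl_iff, Set.mem_iUnion]
    constructor
    · intro hx
      have h1 : (orb (alp p x) K 0).Finite := Set.not_infinite.1 hx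
      refine ⟨(orb (alp p x) K 0).ncard, ?_⟩
      change (orb (alp p x) K 0).encard ≤ _
      rw [h1.cast_ncard_eq]
    · rintro ⟨n, hn⟩ hx
      exact hx (Set.finite_of_encard_le_coe hn)
  · obtain ⟨S, hS⟩ := hK
    have h1 : FX X K = ⋂ s ∈ S, {x : X | p.n s x = 0} := by
      ext x
      simp only [Set.mem_iInter]
      constructor
      · intro hx s hs
        exact (p.eq_zero_iff s x).2 (hx s (by rw [← hS]; exact Subgroup.subset_closure hs))
      · intro hx g hg
        rw [← hS] at hg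
        have h2 : Subgroup.closure (S : Set L) ≤ MulAction.stabilizer L x := by
          rw [Subgroup.closure_le]
          intro s hs
          exact (p.eq_zero_iff s x).1 (hx s hs)
        exact h2 hg
    rw [h1]
    exact isClopen_biInter_finset fun s _ => (isClopen_discrete {0}).preimage (p.cont s)
  · intro n
    obtain ⟨N, hN1, hN2, hN3⟩ := exists_N K hK n
    refine ⟨N, hN1, hN2, fun g hg x hx => ?_⟩
    have hx' : (orb (alp p x) K 0).encard ≤ n := hx
    have hfin : (orb (alp p x) K 0).Finite := Set.finite_of_encard_le_coe hx'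
    have hfin' : Finite (orb (alp p x) K 0) := hfin
    have hm : (orb (alp p x) K 0).ncard ≤ n := by
      rw [← hfin.cast_ncard_eq] at hx'
      exact_mod_cast hx'
    obtain ⟨φ, hφ⟩ : ∃ φ : K →* Equiv.Perm (orb (alp p x) K 0), ∀ (k : K) (j : orb (alp p x) K 0),
        ((φ k j : orb (alp p x) K 0) : ℤ) = alp p x (k : L) j := by
      refine ⟨⟨⟨fun k => (alp p x (k : L)).subtypePerm fun j => orb_inv (alp p x) K k.2 j, ?_⟩, ?_⟩,
        fun _ _ => rfl⟩
      · ext j
        change alp p x ((1 : K) : L) j = (j : ℤ)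
        rw [OneMemClass.coe_one, map_one, Equiv.Perm.one_apply]
      · intro a b
        ext j
        change alp p x ((a * b : K) : L) j = alp p x (a : L) (alp p x (b : L) j)
        rw [Subgroup.coe_mul, map_mul, Equiv.Perm.mul_apply]
    obtain ⟨e⟩ : Nonempty (orb (alp p x) K 0 ≃ Fin (orb (alp p x) K 0).ncard) :=
      ⟨Finite.equivFinOfCardEq rfl⟩
    have h4 := hN3 _ hm ((Equiv.permCongrHom e).toMonoidHom.comp φ) g (hN1 hg) hg
    have h5 : φ ⟨g, hN1 hg⟩ = 1 := (Equiv.permCongrHom e).injective (by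
      rw [map_one]
      exact h4)
    have h6 := hφ ⟨g, hN1 hg⟩ ⟨0, zero_mem_orb _ _⟩
    rw [h5, Equiv.Perm.one_apply] at h6
    have h7 := (alp_eq_self_iff p x g 0).1 h6.symm
    rwa [zpow_zero] at h7

end Pool.Agent.FGT.H20
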